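import Pool.Agent.H353R7.G4

set_option autoImplicit false

/-!
# Zeros of high derivatives, from bounds of the Dirichlet series in the half planes `Re s ≥ σ > 1` only
-/

open Complex Set MeasureTheory intervalIntegral Filter Topology
open scoped ComplexConjugate NNReal ENNReal

namespace Pool.Agent.Helper41x.Dl

open H353.E H353.F

/-- The theorem of `H353R7.G4` (`datum_sharp`, `θ = 0`) without a pointwise bound for the Satake parameters. -/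
theorem der_main {m : ℕ} (hm : 1 ≤ m) {N : ℝ} (hN : 1 ≤ N) {μ : Fin m → ℂ} (hμ : ∀ j, (μ j).re ≤ 1 / 2)
    {X F : ℂ → ℂ} (hXd : Differentiable ℂ X) (hXe : ∀ z : ℂ, 1 < z.re → X z = gaf N μ z * F z)
    (hF : ∀ σ : ℝ, 1 < σ → ∃ B : ℝ, 1 ≤ B ∧ ∀ z : ℂ, σ ≤ z.re → ‖F z‖ ≤ B ∧ 1 ≤ B * ‖F z‖)
    {B1 : ℝ} (hB1 : 1 ≤ B1) (hBc : ∀ z : ℂ, 4 ≤ z.re → ‖F z - 1‖ ≤ B1 * (1 / 2 : ℝ) ^ z.re)
    {ε : ℂ} (hε : ‖ε‖ = 1) (hfe : ∀ z : ℂ, X z = ε * conj (X (1 - conj z)))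
    (hbdd : ∃ M, ∀ z : ℂ, -3 ≤ z.re → z.re ≤ 4 → ‖X z‖ ≤ Real.exp (M * (1 + |z.im|)))
    {η : ℝ} (hη : 0 < η) : ∃ C0 : ℝ, ∀ (n : ℕ) (s : ℂ),
    (1 / 4 + η) * Real.log (N * ∏ j, (1 + ‖(s.im : ℂ) * I - μ j‖)) + C0 ≤ n →
    iteratedDeriv n X s = 0 → s.re = 1 / 2 ∧ iteratedDeriv (n + 1) X s ≠ 0 := by
  have hm' : (1 : ℝ) ≤ m := by exact_mod_cast hm
  obtain ⟨η', hη'⟩ : ∃ η' : ℝ, η' = min η 1 := ⟨_, rfl⟩
  have hη'0 : 0 < η' := by rw [hη']; exact lt_min hη one_pos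
  have hη'1 : η' ≤ 1 := by rw [hη']; exact min_le_right _ _
  have hη'2 : η' ≤ η := by rw [hη']; exact min_le_left _ _
  obtain ⟨B2, hB2, hBe⟩ := hF (1 + η') (by linarith)
  obtain ⟨σ, hσ⟩ : ∃ σ : ℝ, σ = 1 + η' := ⟨_, rfl⟩
  have hσ1 : 1 ≤ σ := by linarith
  have hC1 : 1 ≤ 6 * (m : ℝ) := by linarith
  have hexp1 : 1 ≤ Real.exp ((6 * (m : ℝ)) ^ 2 / 4 + 64) := Real.one_le_exp (by positivity)
  have hBB : 1 ≤ B2 * Real.exp ((6 * (m : ℝ)) ^ 2 / 4 + 64) := one_le_mul_of_one_le_of_one_le hB2 hexp1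
  obtain ⟨N0, H⟩ := sharp_core (6 * m) (B2 * Real.exp ((6 * (m : ℝ)) ^ 2 / 4 + 64))
    ((1 + B1) * Real.exp (6 * m * 7)) σ (fun K => 4 * Real.exp (2 * |K| + 10)) hC1 hBB hσ1 hη'0
  refine ⟨N0 + 15 * m, fun n s hn hz => ?_⟩
  have gp := gaf_GP hm hN hμ
  have hclose : ∀ z : ℂ, 4 ≤ z.re → ‖X z - gaf N μ z‖ ≤ B1 * (1 / 2 : ℝ) ^ z.re * ‖gaf N μ z‖ :=
    fun z hz => by
      have e : X z - gaf N μ z = (F z - 1) * gaf N μ z := by
        rw [hXe z (by linarith)]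
        ring
      rw [e, norm_mul]
      exact mul_le_mul_of_nonneg_right (hBc z hz) (norm_nonneg _)
  have L : LD (6 * m) ((1 + B1) * Real.exp (6 * m * 7)) (fun K => 4 * Real.exp (2 * |K| + 10)) X
      (gaf N μ) (gaD N μ) :=
    LD_of gp hC1 hB1 hXd hclose ⟨ε, hε, hfe⟩ hbdd
  have hzer : ∀ z, X z = 0 → z.re ≤ 3 / 2 := fun z hz => by
    by_contra hcon
    push Not at hcon
    rw [hXe z (by linarith)] at hz
    rcases mul_eq_zero.mp hz with h | h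
    · exact gp.ne z (by linarith) h
    · obtain ⟨B3, -, h3⟩ := hF (3 / 2) (by norm_num)
      have h4 := (h3 z hcon.le).2
      rw [h, norm_zero, mul_zero] at h4
      linarith
  have hhi : ∀ z : ℂ, σ ≤ z.re → ‖X z‖ ≤ B2 * ‖gaf N μ z‖ := fun z hz => by
    rw [hXe z (by linarith), norm_mul, mul_comm]
    exact mul_le_mul_of_nonneg_right (hBe z (by linarith)).1 (norm_nonneg _)
  have S : Sharp (6 * m) (B2 * Real.exp ((6 * (m : ℝ)) ^ 2 / 4 + 64)) σ (fun K => 4 * Real.exp (2 * |K| + 10)) X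
      (gaf N μ) (gaD N μ) := by
    refine
      { gp := gp, hC := hC1, hB := hBB, hσ := hσ1, diff := hXd,
        fe := ⟨ε, hε, hfe⟩, hi := fun z hz => ?_, lo := fun z hz => ?_,
        strip := fun z h1 h2 => ?_ }
    · refine (hhi z hz).trans (mul_le_mul_of_nonneg_right ?_ (norm_nonneg _))
      nlinarith
    · rw [hXe z (by linarith), norm_mul]
      have h3 := (hBe z (by linarith)).2
      have h4 := norm_nonneg (gaf N μ z)
      have h5 : 1 ≤ B2 * Real.exp ((6 * (m : ℝ)) ^ 2 / 4 + 64) * ‖F z‖ := by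
        calc (1 : ℝ) ≤ B2 * ‖F z‖ := h3
          _ = B2 * 1 * ‖F z‖ := by ring
          _ ≤ B2 * Real.exp ((6 * (m : ℝ)) ^ 2 / 4 + 64) * ‖F z‖ := by gcongr
      calc ‖gaf N μ z‖ = ‖gaf N μ z‖ * 1 := by ring
        _ ≤ ‖gaf N μ z‖ * (B2 * Real.exp ((6 * (m : ℝ)) ^ 2 / 4 + 64) * ‖F z‖) := by gcongr
        _ = _ := by ring
    · exact strip_sharp gp hC1 hB2 hσ1 (by linarith) hXd hhi ⟨ε, hε, hfe⟩ hbdd h1 h2
  have hp1 : ∀ j, 1 ≤ 1 + ‖μ j‖ := fun j => by linarith [norm_nonneg (μ j)]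
  have hcond1 : 1 ≤ N * ∏ j, (1 + ‖μ j‖) := by
    have h1 : 1 ≤ ∏ j, (1 + ‖μ j‖) := by
      refine Finset.prod_induction _ (fun x => (1 : ℝ) ≤ x) (fun a b ha hb => ?_) le_rfl fun j _ => ?_
      · nlinarith
      · linarith [norm_nonneg (μ j)]
    nlinarith
  have hDb : ∃ a k : ℝ, 0 ≤ a ∧ 0 ≤ k ∧ ∀ z : ℂ, 1 ≤ z.re →
      ‖gaD N μ z‖ ≤ a + k * Real.log (‖z‖ + 4) := by
    refine ⟨Real.log (N * ∏ j, (1 + ‖μ j‖)) + 7 * m, m, ?_, by linarith, fun z hz => ?_⟩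
    · have := Real.log_nonneg hcond1
      linarith
    · have := gaD_norm hN hμ hz
      linarith
  have hstrip := strip_zeros hC1 L hzer hDb n hz
  have hcond2 : 1 ≤ N * ∏ j, (1 + ‖(s.im : ℂ) * I - μ j‖) := by
    have h1 : 1 ≤ ∏ j, (1 + ‖(s.im : ℂ) * I - μ j‖) := by
      refine Finset.prod_induction _ (fun x => (1 : ℝ) ≤ x) (fun a b ha hb => ?_) le_rfl fun j _ => ?_
      · nlinarith
      · linarith [norm_nonneg ((s.im : ℂ) * I - μ j)]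
    nlinarith
  obtain ⟨T, hT⟩ : ∃ T : ℝ, T = Real.log (N * ∏ j, (1 + ‖(s.im : ℂ) * I - μ j‖)) := ⟨_, rfl⟩
  rw [← hT] at hn
  have hT0 : 0 ≤ T := by rw [hT]; exact Real.log_nonneg hcond2
  have hN00 : (0 : ℝ) ≤ N0 := Nat.cast_nonneg _
  refine H X (gaf N μ) (gaD N μ) S L n ?_ s ?_ hstrip.1 hstrip.2 hz
  · have : (N0 : ℝ) ≤ n := by
      have : 0 ≤ (1 / 4 + η) * T := by positivity
      linarith
    exact_mod_cast this
  · have h3 := gaD_re_le hN hμ s.im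
    rw [← hT] at h3
    have h4 : 0 ≤ σ - 1 / 2 + η' := by linarith
    calc (σ - 1 / 2 + η') * (gaD N μ (3 / 2 + s.im * I)).re
        ≤ (σ - 1 / 2 + η') * (1 / 2 * T + 5 * m) := by gcongr
      _ = (1 / 4 + η') * T + (σ - 1 / 2 + η') * (5 * m) := by rw [hσ]; ring
      _ ≤ (1 / 4 + η) * T + 3 * (5 * m) := by
          gcongr
          linarith
      _ ≤ n := by linarith

end Pool.Agent.Helper41x.Dl
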