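import Pool.Agent.Helper41x.Dl.LF

set_option autoImplicit false

/-!
# Zeros of the high derivatives of the Ramanujan Xi-function
-/

namespace Pool.Agent.Helper41x.Dl

open Complex Filter Topology
open Pool.Agent.Helper41x.GN Pool.Agent.N963.GN

theorem XiD_eq (z : ℂ) : XiD z = 1 / 2 * Xd (1 / 2 + I * z) := by
  rw [← Lt_KD]
  unfold Xd
  have : -I * (1 / 2 + I * z - 1 / 2) = z := by
    linear_combination (-z) * I_mul_I
  rw [this]
  ring

theorem XiD_der (n : ℕ) : iteratedDeriv n XiD = fun z => I ^ n / 2 * iteratedDeriv n Xd (1 / 2 + I * z) := by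
  induction n with
  | zero =>
    funext z
    rw [iteratedDeriv_zero, iteratedDeriv_zero, XiD_eq, pow_zero]
  | succ n ih =>
    rw [iteratedDeriv_succ, ih]
    funext z
    have hd : Differentiable ℂ (iteratedDeriv n Xd) :=
      (diff_Xd.contDiff (n := ⊤)).differentiable_iteratedDeriv n (WithTop.coe_lt_top _)
    have h1 : HasDerivAt (fun z : ℂ => 1 / 2 + I * z) I z := by
      simpa using ((hasDerivAt_id z).const_mul I).const_add (1 / 2)
    have h2 : HasDerivAt (fun z : ℂ => iteratedDeriv n Xd (1 / 2 + I * z))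
        (deriv (iteratedDeriv n Xd) (1 / 2 + I * z) * I) z :=
      HasDerivAt.comp z (hd _).hasDerivAt h1
    rw [(h2.const_mul (I ^ n / 2)).deriv, iteratedDeriv_succ]
    ring

theorem main {η : ℝ} (hη : 0 < η) : ∃ C : ℝ, ∀ (n : ℕ) (z : ℂ),
    (1 / 2 + η) * Real.log (|z.re| + 2) + C ≤ n → iteratedDeriv n XiD z = 0 →
    z.im = 0 ∧ iteratedDeriv (n + 1) XiD z ≠ 0 := by
  obtain ⟨C0, hC0⟩ := core (η := η / 2) (by linarith)
  refine ⟨C0 + 2 * (1 / 4 + η / 2) * Real.log 4, fun n z hn hz => ?_⟩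
  have hI : ∀ m : ℕ, (I ^ m / 2 : ℂ) ≠ 0 := fun m => div_ne_zero (pow_ne_zero _ I_ne_zero) two_ne_zero
  have e1 : (1 / 2 + I * z).re = 1 / 2 - z.im := by
    rw [Complex.add_re, Complex.mul_re, Complex.I_re, Complex.I_im]
    norm_num
    ring
  have e2 : (1 / 2 + I * z).im = z.re := by
    rw [Complex.add_im, Complex.mul_im, Complex.I_re, Complex.I_im]
    norm_num
  rw [XiD_der] at hz
  have hz' : iteratedDeriv n Xd (1 / 2 + I * z) = 0 := (mul_eq_zero.1 hz).resolve_left (hI n)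
  have habs : 0 ≤ |z.re| := abs_nonneg _
  have hb : ∀ a : ℝ, 0 ≤ a → a ≤ 7 → 1 + ‖(z.re : ℂ) * I - -(a : ℂ)‖ ≤ 4 * (|z.re| + 2) := fun a h0 h7 => by
    have h1 : ‖(z.re : ℂ) * I - -(a : ℂ)‖ ≤ |z.re| + a := by
      refine (norm_sub_le _ _).trans ?_
      rw [norm_mul, Complex.norm_I, norm_neg, Complex.norm_real, Complex.norm_real, Real.norm_eq_abs,
        Real.norm_eq_abs, abs_of_nonneg h0, mul_one]
    linarith
  have hb1 : 1 + ‖(z.re : ℂ) * I - mu 0‖ ≤ 4 * (|z.re| + 2) := by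
    have := hb (11 / 2) (by norm_num) (by norm_num)
    have e : mu 0 = -((11 / 2 : ℝ) : ℂ) := by
      simp [mu]
    rw [e]
    exact this
  have hb2 : 1 + ‖(z.re : ℂ) * I - mu 1‖ ≤ 4 * (|z.re| + 2) := by
    have := hb (13 / 2) (by norm_num) (by norm_num)
    have e : mu 1 = -((13 / 2 : ℝ) : ℂ) := by
      simp [mu]
    rw [e]
    exact this
  have hlog : Real.log ((1 : ℝ) * ∏ j, (1 + ‖(z.re : ℂ) * I - mu j‖)) ≤
      2 * (Real.log 4 + Real.log (|z.re| + 2)) := by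
    rw [one_mul, Fin.prod_univ_two]
    have h3 : (1 + ‖(z.re : ℂ) * I - mu 0‖) * (1 + ‖(z.re : ℂ) * I - mu 1‖) ≤ (4 * (|z.re| + 2)) ^ 2 := by
      rw [pow_two]
      exact mul_le_mul hb1 hb2 (by positivity) (by positivity)
    refine (Real.log_le_log (by positivity) h3).trans (le_of_eq ?_)
    rw [Real.log_pow, Real.log_mul (by norm_num) (by positivity)]
    push_cast
    ring
  have hcond : (1 / 4 + η / 2) * Real.log ((1 : ℝ) * ∏ j, (1 + ‖(((1 / 2 + I * z).im : ℝ) : ℂ) * I - mu j‖)) + C0 ≤ n := by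
    rw [e2]
    have h4 : (1 / 4 + η / 2) * Real.log ((1 : ℝ) * ∏ j, (1 + ‖(z.re : ℂ) * I - mu j‖)) ≤
        (1 / 4 + η / 2) * (2 * (Real.log 4 + Real.log (|z.re| + 2))) :=
      mul_le_mul_of_nonneg_left hlog (by linarith)
    linarith
  obtain ⟨r1, r2⟩ := hC0 n _ hcond hz'
  rw [e1] at r1
  refine ⟨by linarith, ?_⟩
  rw [XiD_der]
  exact mul_ne_zero (hI _) r2

end Pool.Agent.Helper41x.Dl
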