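import Pool.Agent.Helper41x.Dl.Newf
import Pool.Agent.Helper41x.Dl.Der
import Pool.Agent.W388.TW.Good
import Pool.Agent.W482.TW.Id
import Pool.Agent.W482.TW.Id2
import Pool.Agent.W688.TW.Kara
import Pool.Agent.W688.TW.Sel
import Pool.Agent.W388.TW.XDir
import Pool.Agent.W54.TW.Unfold
import Pool.Agent.W54.TW.EisPairs
import Pool.Agent.W409.TW.EisLim
import Pool.Agent.W749.TW.EisBd
import Pool.Agent.W375.TW.Cusp
import Pool.Agent.W388.TW.XPars
import Pool.Agent.W438.TW.RS4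

set_option autoImplicit false

/-!
# The L-function of the discriminant in the half plane of absolute convergence
-/

namespace Pool.Agent.Helper41x.Dl

open UpperHalfPlane hiding I
open Complex Filter Topology MeasureTheory MatrixGroups CongruenceSubgroup
open scoped ComplexConjugate
open Pool.Agent.W97.TW Pool.Agent.Helper41x.GN Pool.Agent.N963.GN H353.E

/-- the normalised coefficients -/
noncomputable def lam (n : ℕ) : ℝ := W388.lamf deltaForm n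

theorem hs_lam : W388.HeckeSeq 1 lam := W388.heckeSeq_lamf newf_delta

theorem rs_lam : W388.RSLim lam :=
  (Pool.Agent.W438.TW.t_rs W54.TW.t_unfold W54.TW.t_eispairs
    Pool.Agent.W409.TW.t_eislim Pool.Agent.W749.TW.t_eisbd W388.t_cusp W388.XPars.t_pars) 1 12 (by norm_num)
    deltaForm 1 newf_delta

theorem dir_lam : ∃ F : ℂ → ℂ, (∀ s : ℂ, F s = ∑' n : ℕ, (lam n : ℂ) * (n : ℂ) ^ (-s)) ∧
    (∀ s : ℂ, 1 < s.re → Summable (fun n : ℕ => ‖(lam n : ℂ) * (n : ℂ) ^ (-s)‖)) ∧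
    (∀ s : ℂ, 1 < s.re → F s ≠ 0) ∧
    (∀ s : ℂ, 1 < s.re → HasProd (fun p : Nat.Primes =>
        (1 - (lam p : ℂ) * ((p : ℕ) : ℂ) ^ (-s) + ((p : ℕ) : ℂ) ^ (-2 * s))⁻¹) (F s)) := by
  obtain ⟨A, -, -, -, h⟩ := (W388.XDir.t_dir Pool.Agent.W482.TW.t_id1
    (W688.TW.t_sel Pool.Agent.W482.TW.t_id2 W688.TW.t_kara)) 1 one_pos lam hs_lam rs_lam
  have h1 : ∀ n : ℕ, (1 : DirichletCharacter ℂ 1) (n : ZMod 1) = 1 := fun n => by
    rw [Subsingleton.elim (n : ZMod 1) 1, map_one]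
  refine ⟨fun s => ∑' n : ℕ, (lam n : ℂ) * (n : ℂ) ^ (-s), fun s => rfl, ?_⟩
  obtain ⟨e1, e2, -, -, -, e6⟩ := h 1 (1 : DirichletCharacter ℂ 1)
    (fun s => ∑' n : ℕ, (lam n : ℂ) * (n : ℂ) ^ (-s)) (fun s _ => by
      simp only [h1, one_mul])
  refine ⟨fun s hs => ?_, e2, fun s hs => ?_⟩
  · have := e1 s hs
    simpa only [h1, one_mul] using this
  · have := e6 s hs
    refine this.congr_fun fun p => ?_
    have hp : ¬ (p : ℕ) ∣ 1 := fun hc => p.2.one_lt.ne' (Nat.dvd_one.mp hc)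
    rw [h1, if_neg hp, one_mul, one_pow, one_mul]

/-- the parameters at infinity -/
noncomputable def mu : Fin 2 → ℂ := ![-(11 / 2), -(13 / 2)]

/-- the completed L-function, symmetric about `1/2` -/
noncomputable def Xd (s : ℂ) : ℂ := 2 * Lt (fun u : ℝ => KD (u : ℂ)) (-I * (s - 1 / 2))

theorem gaf_mu (s : ℂ) : gaf 1 mu s = Gammaℝ (s + 11 / 2) * Gammaℝ (s + 13 / 2) := by
  unfold gaf mu
  rw [Fin.prod_univ_two]
  simp only [Matrix.cons_val_zero, Matrix.cons_val_one, Complex.ofReal_one, Complex.one_cpow, one_mul, sub_neg_eq_add]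

theorem gaf_mu' (s : ℂ) : gaf 1 mu s = 2 * (2 * Real.pi : ℂ) ^ (-(s + 11 / 2)) * Gamma (s + 11 / 2) := by
  rw [gaf_mu, show s + 13 / 2 = (s + 11 / 2) + 1 by ring, Gammaℝ_mul_Gammaℝ_add_one, Gammaℂ_def]

theorem Xd_far {s : ℂ} (hs : 15 / 2 < s.re) :
    Xd s = gaf 1 mu s * ∑' n : ℕ, (lam n : ℂ) * (n : ℂ) ^ (-s) := by
  have e1 : (((12 : ℕ) : ℂ) / 2 + I * (-I * (s - 1 / 2))) = s + 11 / 2 := by
    push_cast
    linear_combination (-(s - 1 / 2)) * I_mul_I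
  have hw : (((12 : ℕ) : ℝ)) + 1 < (((12 : ℕ) : ℂ) / 2 + I * (-I * (s - 1 / 2))).re := by
    rw [e1, Complex.add_re]
    norm_num
    linarith
  have h1 := Pool.Agent.N348.GN.Lt_formula mf_delta hw
  rw [e1] at h1
  unfold Xd
  have h2 : Lt (fun u : ℝ => KD (u : ℂ)) (-I * (s - 1 / 2)) =
      1 * ((((2 * Real.pi / Real.sqrt (1 : ℕ) : ℝ) : ℂ)) ^ (-(s + 11 / 2)) *
        (Gamma (s + 11 / 2) * LSeries (fun n => (qExpansion 1 dForm).coeff n) (s + 11 / 2))) := h1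
  rw [h2, gaf_mu']
  have h3 : LSeries (fun n => (qExpansion 1 dForm).coeff n) (s + 11 / 2) =
      ∑' n : ℕ, (lam n : ℂ) * (n : ℂ) ^ (-s) := by
    unfold LSeries
    refine tsum_congr fun n => ?_
    rcases eq_or_ne n 0 with h0 | h0
    · subst h0
      rw [LSeries.term_zero, hs_lam.zero]
      simp
    · rw [LSeries.term_of_ne_zero h0]
      have h4 : (qExpansion 1 dForm).coeff n = (lam n : ℂ) * (n : ℂ) ^ ((((12 : ℤ) : ℂ) - 1) / 2) :=
        W388.lamf_eq newf_delta n h0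
      have hn0 : (n : ℂ) ≠ 0 := by exact_mod_cast h0
      rw [h4, Complex.cpow_add _ _ hn0, Complex.cpow_neg]
      have h5 : (n : ℂ) ^ (11 / 2 : ℂ) ≠ 0 := by
        rw [Complex.cpow_def_of_ne_zero hn0]
        exact Complex.exp_ne_zero _
      have h6 : (n : ℂ) ^ s ≠ 0 := by
        rw [Complex.cpow_def_of_ne_zero hn0]
        exact Complex.exp_ne_zero _
      have h7 : ((((12 : ℤ) : ℂ) - 1) / 2) = 11 / 2 := by
        push_cast
        norm_num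
      rw [h7]
      field_simp
  rw [h3]
  have h8 : (((2 * Real.pi / Real.sqrt (1 : ℕ) : ℝ) : ℂ)) = 2 * Real.pi := by
    simp
  rw [h8]
  ring

theorem diff_Xd : Differentiable ℂ Xd := by
  unfold Xd
  have h1 : Differentiable ℂ (Lt (fun u : ℝ => KD (u : ℂ))) := diff_Lt kern_delta.wt
  exact (h1.comp (((differentiable_id).sub_const _).const_mul _)).const_mul _

theorem Xd_series {s : ℂ} (hs : 1 < s.re) :
    Xd s = gaf 1 mu s * ∑' n : ℕ, (lam n : ℂ) * (n : ℂ) ^ (-s) := by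
  obtain ⟨F, hF, hsum, -, -⟩ := dir_lam
  have hg : ∀ z : ℂ, 1 < z.re → gaf 1 mu z ≠ 0 := fun z hz => by
    rw [gaf_mu]
    refine mul_ne_zero (Gammaℝ_ne_zero_of_re_pos ?_) (Gammaℝ_ne_zero_of_re_pos ?_)
    · rw [Complex.add_re]
      norm_num
      linarith
    · rw [Complex.add_re]
      norm_num
      linarith
  obtain ⟨E, hE⟩ : ∃ E : ℂ → ℂ, E = fun s => Xd s * ((Gammaℝ (s + 11 / 2))⁻¹ * (Gammaℝ (s + 13 / 2))⁻¹) :=
    ⟨_, rfl⟩
  have hEd : Differentiable ℂ E := by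
    rw [hE]
    exact diff_Xd.mul ((differentiable_Gammaℝ_inv.comp (differentiable_id.add_const _)).mul
      (differentiable_Gammaℝ_inv.comp (differentiable_id.add_const _)))
  have hEX : ∀ z : ℂ, 1 < z.re → Xd z = gaf 1 mu z * E z := fun z hz => by
    have h1 := hg z hz
    rw [gaf_mu] at h1 ⊢
    rw [hE]
    simp only
    rw [mul_ne_zero_iff] at h1
    generalize Gammaℝ (z + 11 / 2) = a at h1 ⊢
    generalize Gammaℝ (z + 13 / 2) = b at h1 ⊢
    obtain ⟨h1, h2⟩ := h1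
    field_simp
  have h := W388.ext_series E hEd (fun n => (lam n : ℂ)) (by rw [hs_lam.zero]; simp) hsum (15 / 2)
    (fun z hz => by
      have h2 := hEX z (by linarith)
      rw [Xd_far hz] at h2
      exact (mul_left_cancel₀ (hg z (by linarith)) h2).symm) s hs
  rw [hEX s hs, h]

theorem F_bounds {F : ℂ → ℂ} (hF : ∀ s : ℂ, F s = ∑' n : ℕ, (lam n : ℂ) * (n : ℂ) ^ (-s))
    (hsum : ∀ s : ℂ, 1 < s.re → Summable (fun n : ℕ => ‖(lam n : ℂ) * (n : ℂ) ^ (-s)‖))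
    (hne : ∀ s : ℂ, 1 < s.re → F s ≠ 0)
    (hprod : ∀ s : ℂ, 1 < s.re → HasProd (fun p : Nat.Primes =>
        (1 - (lam p : ℂ) * ((p : ℕ) : ℂ) ^ (-s) + ((p : ℕ) : ℂ) ^ (-2 * s))⁻¹) (F s)) (σ : ℝ) (hσ : 1 < σ) :
    ∃ B : ℝ, 1 ≤ B ∧ ∀ z : ℂ, σ ≤ z.re → ‖F z‖ ≤ B ∧ 1 ≤ B * ‖F z‖ := by
  have hs1 := hsum (σ : ℂ) (by simpa using hσ)
  have hnn : ∀ (n : ℕ) (z : ℂ), z.re ≠ 0 → ‖(lam n : ℂ) * (n : ℂ) ^ (-z)‖ = |lam n| * (n : ℝ) ^ (-z.re) := by
    intro n z hz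
    rw [norm_mul, Complex.norm_real, Real.norm_eq_abs]
    rcases Nat.eq_zero_or_pos n with h0 | h0
    · subst h0
      rw [hs_lam.zero]
      simp
    · rw [Complex.norm_natCast_cpow_of_pos h0, Complex.neg_re]
  have hs2 : Summable (fun n : ℕ => |lam n| * (n : ℝ) ^ (-σ)) := by
    refine hs1.congr fun n => ?_
    rw [hnn n σ (by simp; linarith), Complex.ofReal_re]
  have hmono : ∀ (n : ℕ) (z : ℂ), σ ≤ z.re → |lam n| * (n : ℝ) ^ (-z.re) ≤ |lam n| * (n : ℝ) ^ (-σ) := by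
    intro n z hz
    rcases Nat.eq_zero_or_pos n with h0 | h0
    · subst h0
      rw [hs_lam.zero]
      simp
    · refine mul_le_mul_of_nonneg_left ?_ (abs_nonneg _)
      exact Real.rpow_le_rpow_of_exponent_le (by exact_mod_cast h0) (by linarith)
  obtain ⟨S, hS⟩ : ∃ S : ℝ, S = ∑' n : ℕ, |lam n| * (n : ℝ) ^ (-σ) := ⟨_, rfl⟩
  have hs3 : Summable (fun n : ℕ => (n : ℝ) ^ (-(2 * σ))) := by
    rw [Real.summable_nat_rpow]
    linarith
  obtain ⟨T, hT⟩ : ∃ T : ℝ, T = ∑' n : ℕ, (n : ℝ) ^ (-(2 * σ)) := ⟨_, rfl⟩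
  have hT0 : 0 ≤ T := by
    rw [hT]
    exact tsum_nonneg fun n => by positivity
  have hS0 : 0 ≤ S := by
    rw [hS]
    exact tsum_nonneg fun n => by positivity
  refine ⟨max S (Real.exp (S + T)), ?_, fun z hz => ⟨?_, ?_⟩⟩
  · exact le_max_of_le_right (Real.one_le_exp (by linarith))
  · refine le_max_of_le_left ?_
    rw [hF, hS]
    have hz1 : 1 < z.re := by linarith
    refine (norm_tsum_le_tsum_norm (hsum z hz1)).trans ?_
    refine Summable.tsum_le_tsum (fun n => ?_) (hsum z hz1) hs2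
    rw [hnn n z (by linarith)]
    exact hmono n z hz
  · have hz1 : 1 < z.re := by linarith
    have hlow : Real.exp (-(S + T)) ≤ ‖F z‖ := by
      have ht := (continuous_norm.tendsto (F z)).comp (hprod z hz1)
      refine ge_of_tendsto' ht fun P => ?_
      simp only [Function.comp_apply]
      rw [norm_prod]
      have hP1 : ∑ p ∈ P, |lam (p : ℕ)| * ((p : ℕ) : ℝ) ^ (-σ) ≤ S := by
        rw [hS]
        have := hs2.comp_injective (i := fun p : Nat.Primes => (p : ℕ)) Subtype.val_injective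
        calc ∑ p ∈ P, |lam (p : ℕ)| * ((p : ℕ) : ℝ) ^ (-σ) =
            ∑ n ∈ P.map ⟨fun p : Nat.Primes => (p : ℕ), Subtype.val_injective⟩, |lam n| * (n : ℝ) ^ (-σ) := by
              rw [Finset.sum_map]
              rfl
          _ ≤ _ := hs2.sum_le_tsum _ fun n _ => by positivity
      have hP2 : ∑ p ∈ P, ((p : ℕ) : ℝ) ^ (-(2 * σ)) ≤ T := by
        rw [hT]
        calc ∑ p ∈ P, ((p : ℕ) : ℝ) ^ (-(2 * σ)) =
            ∑ n ∈ P.map ⟨fun p : Nat.Primes => (p : ℕ), Subtype.val_injective⟩, (n : ℝ) ^ (-(2 * σ)) := by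
              rw [Finset.sum_map]
              rfl
          _ ≤ _ := hs3.sum_le_tsum _ fun n _ => by positivity
      calc Real.exp (-(S + T)) ≤
          Real.exp (-∑ p ∈ P, (|lam (p : ℕ)| * ((p : ℕ) : ℝ) ^ (-σ) + ((p : ℕ) : ℝ) ^ (-(2 * σ)))) := by
            rw [Finset.sum_add_distrib]
            refine Real.exp_le_exp.2 ?_
            linarith
        _ = ∏ p ∈ P, Real.exp (-(|lam (p : ℕ)| * ((p : ℕ) : ℝ) ^ (-σ) + ((p : ℕ) : ℝ) ^ (-(2 * σ)))) := by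
            rw [← Finset.sum_neg_distrib, Real.exp_sum]
        _ ≤ _ := by
            refine Finset.prod_le_prod (fun p _ => (Real.exp_pos _).le) fun p _ => ?_
            rw [norm_inv]
            have hp0 : (0 : ℝ) < (p : ℕ) := by exact_mod_cast p.2.pos
            have e1 : ‖1 - (lam p : ℂ) * ((p : ℕ) : ℂ) ^ (-z) + ((p : ℕ) : ℂ) ^ (-2 * z)‖ ≤
                1 + (|lam (p : ℕ)| * ((p : ℕ) : ℝ) ^ (-σ) + ((p : ℕ) : ℝ) ^ (-(2 * σ))) := by
              have a1 := norm_add_le (1 - (lam p : ℂ) * ((p : ℕ) : ℂ) ^ (-z)) (((p : ℕ) : ℂ) ^ (-2 * z))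
              have a2 := norm_sub_le (1 : ℂ) ((lam p : ℂ) * ((p : ℕ) : ℂ) ^ (-z))
              rw [norm_one, hnn p z (by linarith)] at a2
              have a3 := hmono p z hz
              have a4 : ‖((p : ℕ) : ℂ) ^ (-2 * z)‖ ≤ ((p : ℕ) : ℝ) ^ (-(2 * σ)) := by
                rw [Complex.norm_natCast_cpow_of_pos p.2.pos]
                refine Real.rpow_le_rpow_of_exponent_le (by exact_mod_cast p.2.one_lt.le) ?_
                have : (-2 * z).re = -2 * z.re := by simp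
                rw [this]
                linarith
              linarith
            have e2 : 0 < ‖1 - (lam p : ℂ) * ((p : ℕ) : ℂ) ^ (-z) + ((p : ℕ) : ℂ) ^ (-2 * z)‖ := by
              rw [norm_pos_iff]
              intro h0
              have h9 : HasProd (fun p : Nat.Primes =>
                  (1 - (lam p : ℂ) * ((p : ℕ) : ℂ) ^ (-z) + ((p : ℕ) : ℂ) ^ (-2 * z))⁻¹) 0 :=
                hasProd_zero_of_exists_eq_zero ⟨p, by rw [h0, inv_zero]⟩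
              exact hne z hz1 ((hprod z hz1).unique h9)
            rw [Real.exp_neg]
            refine inv_anti₀ e2 (e1.trans ?_)
            rw [add_comm]
            exact Real.add_one_le_exp _
    have h2 : 0 < Real.exp (S + T) := Real.exp_pos _
    calc (1 : ℝ) = Real.exp (S + T) * Real.exp (-(S + T)) := by rw [← Real.exp_add]; simp
      _ ≤ max S (Real.exp (S + T)) * ‖F z‖ :=
          mul_le_mul (le_max_right _ _) hlow (Real.exp_pos _).le (le_max_of_le_right h2.le)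

theorem F_far {F : ℂ → ℂ} (hF : ∀ s : ℂ, F s = ∑' n : ℕ, (lam n : ℂ) * (n : ℂ) ^ (-s))
    (hsum : ∀ s : ℂ, 1 < s.re → Summable (fun n : ℕ => ‖(lam n : ℂ) * (n : ℂ) ^ (-s)‖)) :
    ∃ B1 : ℝ, 1 ≤ B1 ∧ ∀ z : ℂ, 4 ≤ z.re → ‖F z - 1‖ ≤ B1 * (1 / 2 : ℝ) ^ z.re := by
  have hs1 := hsum (4 : ℂ) (by norm_num)
  have hnn : ∀ (n : ℕ) (z : ℂ), z.re ≠ 0 → ‖(lam n : ℂ) * (n : ℂ) ^ (-z)‖ = |lam n| * (n : ℝ) ^ (-z.re) := by
    intro n z hz
    rw [norm_mul, Complex.norm_real, Real.norm_eq_abs]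
    rcases Nat.eq_zero_or_pos n with h0 | h0
    · subst h0
      rw [hs_lam.zero]
      simp
    · rw [Complex.norm_natCast_cpow_of_pos h0, Complex.neg_re]
  have hs2 : Summable (fun n : ℕ => |lam n| * (n : ℝ) ^ (-(4 : ℝ))) := by
    refine hs1.congr fun n => ?_
    rw [hnn n 4 (by norm_num)]
    norm_num
  have hs0 : 0 ≤ ∑' n : ℕ, |lam n| * (n : ℝ) ^ (-(4 : ℝ)) := tsum_nonneg fun n => by positivity
  refine ⟨16 * (∑' n : ℕ, |lam n| * (n : ℝ) ^ (-(4 : ℝ))) + 1, by linarith, fun z hz => ?_⟩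
  have hz1 : 1 < z.re := by linarith
  have hsz : Summable (fun n : ℕ => (lam n : ℂ) * (n : ℂ) ^ (-z)) := (hsum z hz1).of_norm
  have e1 : F z - 1 = ∑' n : ℕ, (lam (n + 2) : ℂ) * ((n + 2 : ℕ) : ℂ) ^ (-z) := by
    rw [hF, ← hsz.sum_add_tsum_nat_add 2, Finset.sum_range_succ, Finset.sum_range_one, hs_lam.zero, hs_lam.one]
    simp
  rw [e1]
  have hsz2 : Summable (fun n : ℕ => ‖(lam (n + 2) : ℂ) * ((n + 2 : ℕ) : ℂ) ^ (-z)‖) :=
    (summable_nat_add_iff 2).2 (hsum z hz1)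
  have hs3 : Summable (fun n : ℕ => |lam (n + 2)| * ((n + 2 : ℕ) : ℝ) ^ (-(4 : ℝ))) :=
    (summable_nat_add_iff 2).2 hs2
  refine (norm_tsum_le_tsum_norm hsz2).trans ?_
  have e2 : ∀ n : ℕ, ‖(lam (n + 2) : ℂ) * ((n + 2 : ℕ) : ℂ) ^ (-z)‖ ≤
      (16 * (1 / 2 : ℝ) ^ z.re) * (|lam (n + 2)| * ((n + 2 : ℕ) : ℝ) ^ (-(4 : ℝ))) := by
    intro n
    rw [hnn _ z (by linarith)]
    have h2 : (0 : ℝ) < ((n + 2 : ℕ) : ℝ) := by positivity
    have h3 : ((n + 2 : ℕ) : ℝ) ^ (-z.re) = ((n + 2 : ℕ) : ℝ) ^ (-(4 : ℝ)) * ((n + 2 : ℕ) : ℝ) ^ (-(z.re - 4)) := by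
      rw [← Real.rpow_add h2]
      congr 1
      ring
    have h4 : ((n + 2 : ℕ) : ℝ) ^ (-(z.re - 4)) ≤ 16 * (1 / 2 : ℝ) ^ z.re := by
      have h5 : ((n + 2 : ℕ) : ℝ) ^ (-(z.re - 4)) ≤ (2 : ℝ) ^ (-(z.re - 4)) := by
        refine Real.rpow_le_rpow_of_nonpos (by norm_num) ?_ (by linarith)
        push_cast
        have : (0 : ℝ) ≤ n := Nat.cast_nonneg n
        linarith
      refine h5.trans (le_of_eq ?_)
      rw [one_div, Real.inv_rpow (by norm_num), ← Real.rpow_neg (by norm_num),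
        show -(z.re - 4) = 4 + -z.re by ring, Real.rpow_add (by norm_num)]
      norm_num
    rw [h3]
    have h6 : 0 ≤ |lam (n + 2)| * ((n + 2 : ℕ) : ℝ) ^ (-(4 : ℝ)) := by positivity
    calc |lam (n + 2)| * (((n + 2 : ℕ) : ℝ) ^ (-(4 : ℝ)) * ((n + 2 : ℕ) : ℝ) ^ (-(z.re - 4))) =
        ((n + 2 : ℕ) : ℝ) ^ (-(z.re - 4)) * (|lam (n + 2)| * ((n + 2 : ℕ) : ℝ) ^ (-(4 : ℝ))) := by ring
      _ ≤ _ := mul_le_mul_of_nonneg_right h4 h6
  calc ∑' n : ℕ, ‖(lam (n + 2) : ℂ) * ((n + 2 : ℕ) : ℂ) ^ (-z)‖ ≤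
      ∑' n : ℕ, (16 * (1 / 2 : ℝ) ^ z.re) * (|lam (n + 2)| * ((n + 2 : ℕ) : ℝ) ^ (-(4 : ℝ))) :=
        Summable.tsum_le_tsum e2 hsz2 (hs3.mul_left _)
    _ = (16 * (1 / 2 : ℝ) ^ z.re) * ∑' n : ℕ, (|lam (n + 2)| * ((n + 2 : ℕ) : ℝ) ^ (-(4 : ℝ))) := tsum_mul_left
    _ ≤ (16 * (1 / 2 : ℝ) ^ z.re) * ∑' n : ℕ, (|lam n| * (n : ℝ) ^ (-(4 : ℝ))) := by
        refine mul_le_mul_of_nonneg_left ?_ (by positivity)
        rw [← hs2.sum_add_tsum_nat_add 2]
        have : 0 ≤ ∑ i ∈ Finset.range 2, |lam i| * (i : ℝ) ^ (-(4 : ℝ)) := Finset.sum_nonneg fun i _ => by positivity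
        linarith
    _ ≤ _ := by
        have : 0 ≤ (1 / 2 : ℝ) ^ z.re := by positivity
        nlinarith

theorem Xd_fe (z : ℂ) : Xd z = 1 * conj (Xd (1 - conj z)) := by
  unfold Xd
  have hs : Sym (Lt (fun u : ℝ => KD (u : ℂ))) := sym_Lt (fun u => KD_herm u)
  rw [one_mul, map_mul, ← hs]
  have e1 : conj (2 : ℂ) = 2 := Complex.conj_ofNat 2
  have e2 : conj (-I * (1 - conj z - 1 / 2)) = -I * (z - 1 / 2) := by
    simp only [map_mul, map_neg, map_sub, map_one, map_div₀, Complex.conj_conj, Complex.conj_I, e1]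
    ring
  rw [e1, e2]

theorem Xd_bdd : ∃ M, ∀ z : ℂ, -3 ≤ z.re → z.re ≤ 4 → ‖Xd z‖ ≤ Real.exp (M * (1 + |z.im|)) := by
  have hw : Wt (fun u : ℝ => KD (u : ℂ)) := kern_delta.wt
  obtain ⟨C, hC⟩ : ∃ C : ℝ, C = ∫ u : ℝ, ‖KD (u : ℂ)‖ * Real.exp (4 * |u|) := ⟨_, rfl⟩
  have hi := hw.norm_int 4
  have hC0 : 0 ≤ C := by
    rw [hC]
    exact integral_nonneg fun u => by positivity
  refine ⟨Real.log (1 + 2 * C), fun z h1 h2 => ?_⟩
  have hb : ‖Lt (fun u : ℝ => KD (u : ℂ)) (-I * (z - 1 / 2))‖ ≤ C := by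
    unfold Lt
    rw [hC]
    refine norm_integral_le_of_norm_le hi (Eventually.of_forall fun u => ?_)
    rw [norm_mul]
    refine mul_le_mul_of_nonneg_left ?_ (norm_nonneg _)
    rw [Complex.norm_exp]
    refine Real.exp_le_exp.2 ?_
    have e : (I * (-I * (z - 1 / 2)) * u).re = (z.re - 1 / 2) * u := by
      have : I * (-I * (z - 1 / 2)) * u = (z - 1 / 2) * u := by
        linear_combination (-(z - 1 / 2) * u) * I_mul_I
      rw [this, Complex.re_mul_ofReal, Complex.sub_re]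
      norm_num
    rw [e]
    refine (le_abs_self _).trans ?_
    rw [abs_mul]
    refine mul_le_mul_of_nonneg_right ?_ (abs_nonneg _)
    rw [abs_le]
    constructor <;> linarith
  have h3 : ‖Xd z‖ ≤ 1 + 2 * C := by
    unfold Xd
    rw [norm_mul]
    have : ‖(2 : ℂ)‖ = 2 := by norm_num
    rw [this]
    linarith
  refine h3.trans ?_
  have h4 : 0 < 1 + 2 * C := by linarith
  have h5 : 0 ≤ Real.log (1 + 2 * C) := Real.log_nonneg (by linarith)
  calc 1 + 2 * C = Real.exp (Real.log (1 + 2 * C)) := (Real.exp_log h4).symm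
    _ ≤ _ := Real.exp_le_exp.2 (by nlinarith [abs_nonneg z.im])

theorem core {η : ℝ} (hη : 0 < η) : ∃ C0 : ℝ, ∀ (n : ℕ) (s : ℂ),
    (1 / 4 + η) * Real.log ((1 : ℝ) * ∏ j, (1 + ‖(s.im : ℂ) * I - mu j‖)) + C0 ≤ n →
    iteratedDeriv n Xd s = 0 → s.re = 1 / 2 ∧ iteratedDeriv (n + 1) Xd s ≠ 0 := by
  obtain ⟨F, hF, hsum, hne, hprod⟩ := dir_lam
  obtain ⟨B1, hB1, hB1'⟩ := F_far hF hsum
  have hmu : ∀ j, (mu j).re ≤ 1 / 2 := by
    intro j
    fin_cases j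
    · simp [mu]
      norm_num
    · simp [mu]
      norm_num
  exact der_main (m := 2) (by norm_num) (N := 1) le_rfl hmu diff_Xd
    (fun z hz => by rw [Xd_series hz, hF]) (fun σ hσ => F_bounds hF hsum hne hprod σ hσ) hB1 hB1'
    (ε := 1) norm_one Xd_fe Xd_bdd hη

end Pool.Agent.Helper41x.Dl
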