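import Pool.Agent.W97.TW.Delta
import Pool.Agent.W97.TW.Hecke
import Pool.Agent.W388.TW.D0
import Pool.Agent.Helper41x.GN.Delta

set_option autoImplicit false

/-!
# The discriminant is a newform in the sense of `W388`
-/

namespace Pool.Agent.Helper41x.Dl

open UpperHalfPlane hiding I
open Complex Filter Topology MatrixGroups CongruenceSubgroup
open scoped ComplexConjugate
open Pool.Agent.W97.TW Pool.Agent.Helper41x.GN

theorem dF_apply (z : ℍ) : deltaForm z = ModularForm.discriminant z := rfl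

theorem A_real (n : ℕ) : conj (A deltaForm n) = A deltaForm n := by
  refine ModularFormClass.qExpansion_coeff_unique (Γ := (Gamma0 1 : Subgroup (GL (Fin 2) ℝ)))
    (k := 12) (c := fun n => conj (A deltaForm n)) one_pos one_mem0 (f := deltaForm) (fun τ => ?_) n
  have him : 0 < (-conj (τ : ℂ)).im := by
    rw [Complex.neg_im, Complex.conj_im, neg_neg]
    exact τ.im_pos
  have h1 := hasSum_f deltaForm him
  rw [ofComplex_apply_of_im_pos him, dF_apply, disc_conj τ ⟨_, him⟩ rfl] at h1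
  have h2 := (Complex.hasSum_conj'.2 h1)
  rw [Complex.conj_conj] at h2
  refine h2.congr_fun fun n => ?_
  rw [map_mul, exp_qParam, ← Complex.exp_conj, smul_eq_mul]
  congr 2
  simp only [map_mul, map_neg, Complex.conj_conj, Complex.conj_I, Complex.conj_ofReal, map_natCast,
    Complex.conj_ofNat]
  ring

theorem recD (p : Nat.Primes) : ∃ a : ℂ, ∀ m : ℕ, A deltaForm (p * m) =
    a * A deltaForm m - (p : ℂ) ^ (11 : ℕ) * (if (p : ℕ) ∣ m then A deltaForm (m / p) else 0) := by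
  obtain ⟨a, ha⟩ := isNewform_delta.hecke p
  refine ⟨a, fun m => ?_⟩
  have h1 := hecke_rec deltaForm p.2.pos ha m
  unfold B at h1
  have hp1 : ¬ (p : ℕ) ∣ 1 := by
    intro h
    exact p.2.one_lt.ne' (Nat.dvd_one.mp h)
  rw [if_neg hp1] at h1
  have e : ((p : ℕ) : ℂ) ^ ((12 : ℤ) - 1) = ((p : ℕ) : ℂ) ^ (11 : ℕ) := by
    rw [← zpow_natCast]
    norm_num
  rw [e] at h1
  linear_combination h1

theorem newf_delta : W388.IsNewf 1 12 deltaForm 1 := by
  choose a ha using recD
  have hrec : ∀ (p : Nat.Primes) (m : ℕ), 0 < m → A deltaForm (p * m) = a p * A deltaForm m -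
      (fun p : Nat.Primes => (p : ℂ) ^ (11 : ℕ)) p * (if (p : ℕ) ∣ m then A deltaForm (m / p) else 0) :=
    fun p m _ => ha p m
  have h0 : A deltaForm 0 = 0 := A_zero deltaForm
  have h1 : A deltaForm 1 = 1 := isNewform_delta.coeff_one
  refine ⟨h1, fun n => Complex.conj_eq_iff_im.1 (A_real n), ?_, ?_, Or.inl rfl, ?_⟩
  · exact fun m n h => l_mul_coprime a _ (A deltaForm) h0 h1 hrec m n h
  · intro p j hp
    have h2 := rec_two a _ (A deltaForm) hrec ⟨p, hp⟩ j 1 one_pos
    have h3 := l_prime a _ (A deltaForm) h1 hrec ⟨p, hp⟩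
    simp only [mul_one] at h2
    have hp1 : ¬ p ∣ 1 := by
      intro h
      exact hp.one_lt.ne' (Nat.dvd_one.mp h)
    rw [if_neg hp1]
    have e : (p : ℂ) ^ ((12 : ℤ) - 1) = (p : ℂ) ^ (11 : ℕ) := by
      rw [← zpow_natCast]
      norm_num
    rw [e]
    rw [← h3] at h2
    exact h2
  · intro τ τ' h
    rw [dF_apply, dF_apply, disc_S τ τ' (by rw [← h]; push_cast; ring)]
    have h12 : (((Real.sqrt ((1 : ℕ) : ℝ) : ℝ) : ℂ) * (τ : ℂ) / Complex.I) ^ (12 : ℤ) = (τ : ℂ) ^ 12 := by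
      have e : (((Real.sqrt ((1 : ℕ) : ℝ) : ℝ) : ℂ) * (τ : ℂ) / Complex.I) = (τ : ℂ) / Complex.I := by simp
      rw [e, div_zpow]
      have e2 : Complex.I ^ (12 : ℤ) = 1 := by
        rw [show (12 : ℤ) = ((12 : ℕ) : ℤ) by norm_num, zpow_natCast, show (12 : ℕ) = 4 * 3 from rfl, pow_mul, I_pow_four, one_pow]
      rw [e2, div_one, show (12 : ℤ) = ((12 : ℕ) : ℤ) by norm_num, zpow_natCast]
    rw [h12]
    push_cast
    ring

end Pool.Agent.Helper41x.Dl
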